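import Pool.Agent.Lib.MP_59b239_al.CJ.ZFR
import Pool.Agent.Lib.MP_59b239_al.CJ.BDW
import Pool.Agent.Lib.MP_59b239_al.CJ.ISO
import Pool.Agent.Lib.MP_59b239_al.CJ.ANN
import Pool.Agent.Lib.MP_59b239_al.CJ.SLC
import Pool.Agent.Lib.MP_59b239_al.CJ.BAD
import Pool.Agent.Lib.MP_59b239_al.CJ.LOP
import Pool.Agent.Lib.MP_59b239_al.CJ.PIG
import Pool.Agent.Lib.MP_59b239_al.CJ.COR
import Pool.Agent.Lib.MP_59b239_al.CJ.NUM
import Pool.Agent.Lib.MP_59b239_al.CJ.CONL
import Pool.Agent.Lib.MP_59b239_al.CJ.PRM

/-!
# The conjugacy problem for two-dimensional automatic groups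

`gen : Fin n → G` are generators of `G`; words are lists of letters `inl i` (for `gen i`) and `inr i`
(for its inverse), `ev gen w` is the value of a word `w` (`CJ/Defs.lean`).

* `Automatic gen`: `G` has an automatic structure over `gen` (the same condition as in the frozen
  statement `S01561`).
* `Presents gen rel`: `⟨gen | rel⟩` is a finite presentation of `G`.
* `Aspherical gen rel`: the presentation complex is aspherical; the boundaries of the `2`-cells
  `(x, j)`, `x : G`, of its universal covering are linearly independent over `ℤ`.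
* `RootProp G₀ g`: for some prime `p`, all `y ∈ G₀` with `y g ^ k y⁻¹ = g ^ k'` for some integers
  `k`, `k'` not divisible by `p` commute with `g`. (This holds for all `g` and `G₀ = G` if
  `y g ^ k y⁻¹ = g ^ k'`, `k, k' ≠ 0`, implies `y g = g y`.)
-/

namespace Pool.Agent.Results.MP_59b239_al.TwoDimensional

open Pool.Agent.Lib.MP59b239.CJ

/-- **Theorem.** Let `G` be automatic over the generators `gen`, with an aspherical finite
presentation `⟨gen | rel⟩`, and let `G₀` be a subgroup of finite index. There are a constant `K` and a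
computable function `F` such that for all words `p`, `q` for which `g = ev p` has the property
`RootProp G₀ g`: `F (p, q)` decides whether `g` and `h = ev q` are conjugate, and if they are, then
`h = (ev v)⁻¹ g (ev v)` for a word `v` of length `≤ K ^ (|p| + |q| + 1)`. (In particular, if all
elements of `G` have the property, then the conjugacy problem of `G` is solvable.) -/
theorem result (G : Type) [Group G] (n m : ℕ) (gen : Fin n → G)
    (rel : Fin m → List (Fin n ⊕ Fin n)) (hpres : Presents gen rel) (haut : Automatic gen)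
    (hasph : Aspherical gen rel) (G₀ : Subgroup G) (hG₀ : G₀.FiniteIndex) :
    ∃ (K : ℕ) (F : List (Fin n ⊕ Fin n) × List (Fin n ⊕ Fin n) → Bool), Computable F ∧
      ∀ p q : List (Fin n ⊕ Fin n), RootProp G₀ (ev gen p) →
        (F (p, q) = true ↔ IsConj (ev gen p) (ev gen q)) ∧
        (IsConj (ev gen p) (ev gen q) →
          ∃ v : List (Fin n ⊕ Fin n), v.length ≤ K ^ (p.length + q.length + 1) ∧
            (ev gen v)⁻¹ * ev gen p * ev gen v = ev gen q) := by
  have hCYC := specCYC specFLW specREL
  obtain ⟨K, hK⟩ := specCON specREL (specTOR hCYC specFRE) (specINJ hCYC specZFR) specQUO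
    (specISO specLEN specSTR (specBDW specREL)) specANN specLVL
    (specCOR specSLC specBAD specWND (specLOP specFLW) specPIG) specNUM
    G n m gen rel hpres haut hasph G₀
  obtain ⟨F, hF, hFe⟩ := specPRM specWRD specANY G n gen
    (specWPC specSRH specMEM specCHK G n gen haut) K
  refine ⟨K, F, hF, fun p q hr => ⟨?_, hK p q hr⟩⟩
  rw [hFe]
  constructor
  · rintro ⟨v, -, hv⟩
    exact isConj_iff.mpr ⟨(ev gen v)⁻¹, by rw [inv_inv]; exact hv⟩
  · exact hK p q hr

end Pool.Agent.Results.MP_59b239_al.TwoDimensional
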